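import Pool.Agent.P.MP_29956c_gt.Main

/-!
A rank inequality for reducible surgeries on fibred knots, in group form.

`G` is the knot group, `μ` the meridian, `l` the longitude, `ε` the abelianisation map onto the
integers, `X` a finite generating set of the commutator subgroup (for a fibred knot of genus `g`
one with `2 g` elements). The quotient of `G` by the normal closure of `μ ^ r * l` is the
fundamental group of `r`-surgery, and `A i` are the groups of the connected summands.
-/

namespace Pool.Agent.Results.MP_29956c_gt.FibredBound

theorem result {G : Type} [Group G] (μ l : G) (ε : G →* Multiplicative ℤ)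
    (hμ : ε μ = Multiplicative.ofAdd 1) (hε : ε.ker = commutator G) (hl : l ∈ commutator G)
    (X : Finset G) (hX : Subgroup.closure (X : Set G) = commutator G) (r : ℤ) (hr : r ≠ 0)
    {ι : Type} [Fintype ι] [Nonempty ι] (A : ι → Type) [∀ i, Group (A i)]
    (e : G ⧸ Subgroup.normalClosure {μ ^ r * l} ≃* Monoid.CoprodI A) :
    ∏ i, Nat.card (Abelianization (A i)) = r.natAbs ∧
    ∃ Y : ∀ i, Finset (A i), (∀ i, Subgroup.closure (Y i : Set (A i)) = commutator (A i)) ∧
      ∑ i, (r.natAbs / Nat.card (Abelianization (A i)) * (Y i).card + r.natAbs) + 1 ≤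
        X.card + r.natAbs + ∑ i, r.natAbs / Nat.card (Abelianization (A i)) :=
  Pool.Agent.P.MP_29956c_gt.main μ l ε hμ hε hl X hX r hr e

end Pool.Agent.Results.MP_29956c_gt.FibredBound
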